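import Pool.Agent.Lib.MP_09cbbd_ndp.Cp
import Pool.Agent.Lib.MP_09cbbd_ndc.NcD

/-!
# Close packing: the maximal density of the spheres
-/

set_option autoImplicit false

namespace Pool.Agent.Nbm

open MeasureTheory Filter Topology Pool.Agent.StableGas Pool.Agent.SquareWellGas
  Pool.Agent.ConfinedGas Pool.Agent.NeedleGas Pool.Agent.Ndc

variable {d : ℕ}

/-- The maximal density is at most the close-packing density. -/
theorem rhoc_le_cpd (hd : 1 ≤ d) {a : ℝ} (ha : 0 < a) : rhoc d a ≤ cpd d a := by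
  have hcp := cpd_pos hd ha
  have P' : Pn a a 0 := ⟨ha, ha, le_rfl⟩
  unfold rhoc
  rw [div_le_iff₀ (by positivity)]
  unfold Th.rz
  refine Real.sSup_le ?_ (by positivity)
  rintro r ⟨n, N, hn, hZ, rfl⟩
  have hn' : (1 : ℝ) ≤ n := by exact_mod_cast hn
  have hn0 : (0 : ℝ) < n := by linarith
  unfold Zn at hZ
  rw [P'.Z_pos_iff] at hZ
  have hs : 0 < (n : ℝ) * (4 * a) - Rc a a := by
    unfold Rc
    nlinarith
  have hP : Packs d a ((n : ℝ) * (4 * a) - Rc a a) N := by
    have h1 : (Cf (2 * a) (Fin N) (Box d ((n : ℝ) * (4 * a) - Rc a a))).Nonempty := by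
      by_contra hne
      rw [Set.not_nonempty_iff_eq_empty] at hne
      unfold cr mC at hZ
      rw [hne, measure_empty] at hZ
      simp at hZ
    obtain ⟨x, hx1, hx2⟩ := h1
    exact ⟨x, hx1, hx2⟩
  have h2 : (N : ℝ) ≤ maxN d a ((n : ℝ) * (4 * a) - Rc a a) := by
    exact_mod_cast le_maxN hd ha hP
  have h3 := cpd_ge hd ha hs
  rw [div_le_iff₀ (by positivity)]
  have h4 : ((n : ℝ) * (4 * a) - Rc a a + 2 * a) ^ d ≤ ((n : ℝ) * (4 * a)) ^ d := by
    refine pow_le_pow_left₀ (by linarith) ?_ d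
    unfold Rc
    linarith
  calc (N : ℝ) ≤ _ := h2
    _ ≤ _ := h3
    _ ≤ ((n : ℝ) * (4 * a)) ^ d * cpd d a := mul_le_mul_of_nonneg_right h4 hcp.le
    _ = _ := by rw [mul_pow]; ring

/-- For every density below the maximal density there is a chemical potential at which the pure
hard spheres have at least this density. -/
theorem exists_sub (hd : 1 ≤ d) {a ρ : ℝ} (ha : 0 < a) (hρ : ρ < rhoc d a) :
    ∃ μ' ρ' : ℝ, ρ ≤ ρ' ∧ ∀ μ, PH d a μ' + ρ' * (μ - μ') ≤ PH d a μ :=
  exists_dense hd ha (hρ.trans_le (rhoc_le_cpd hd ha))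

end Pool.Agent.Nbm
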