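import Pool.Agent.Lib.MP_09cbbd_sw.BoxDef

/-!
# Packings of balls in cubes, the close-packing density
-/

set_option autoImplicit false

namespace Pool.Agent.NeedleGas

open Filter Topology Pool.Agent.SquareWellGas

variable {d : ℕ}

/-- There are `N` points of the cube of side `ℓ` with pairwise distances at least `2 a`. -/
def Packs (d : ℕ) (a ℓ : ℝ) (N : ℕ) : Prop :=
  ∃ x : Fin N → Fin d → ℝ, (∀ i, x i ∈ Box d ℓ) ∧
    ∀ i j, i ≠ j → (2 * a) ^ 2 ≤ ∑ k, (x i k - x j k) ^ 2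

/-- The maximal number of points of the cube of side `ℓ` with pairwise distances at least `2 a`. -/
noncomputable def maxN (d : ℕ) (a ℓ : ℝ) : ℕ := sSup {N | Packs d a ℓ N}

/-- The close-packing density. -/
noncomputable def cpd (d : ℕ) (a : ℝ) : ℝ :=
  ⨆ s : Set.Ioi (0 : ℝ), (maxN d a s : ℝ) / ((s : ℝ) + 2 * a) ^ d

theorem packs_zero (a ℓ : ℝ) : Packs d a ℓ 0 :=
  ⟨fun i => i.elim0, fun i => i.elim0, fun i => i.elim0⟩

theorem Packs.le (hd : 1 ≤ d) {a ℓ : ℝ} (ha : 0 < a) {N : ℕ} (h : Packs d a ℓ N) :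
    N ≤ ⌈(d : ℝ) / (2 * a) * ℓ⌉₊ ^ d := by
  obtain ⟨x, hx1, hx2⟩ := h
  have hd' : (0 : ℝ) < d := by exact_mod_cast hd
  obtain ⟨c, hc⟩ : ∃ c : ℝ, c = (d : ℝ) / (2 * a) := ⟨_, rfl⟩
  have hc0 : 0 < c := by rw [hc]; positivity
  rw [← hc]
  have hfl : ∀ i k, ⌊c * x i k⌋₊ < ⌈c * ℓ⌉₊ := by
    intro i k
    have h1 := (hx1 i) k
    have h2 : c * x i k < c * ℓ := mul_lt_mul_of_pos_left h1.2 hc0
    have h3 : 0 ≤ c * x i k := mul_nonneg hc0.le h1.1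
    have h4 : ((⌊c * x i k⌋₊ : ℕ) : ℝ) < ⌈c * ℓ⌉₊ :=
      lt_of_le_of_lt (Nat.floor_le h3) (lt_of_lt_of_le h2 (Nat.le_ceil _))
    exact_mod_cast h4
  have hinj : Function.Injective fun (i : Fin N) (k : Fin d) =>
      (⟨⌊c * x i k⌋₊, hfl i k⟩ : Fin ⌈c * ℓ⌉₊) := by
    intro i j hij
    by_contra hne
    have h1 := hx2 i j hne
    have h2 : ∀ k, (x i k - x j k) ^ 2 < 1 / c ^ 2 := by
      intro k
      have h3 : ⌊c * x i k⌋₊ = ⌊c * x j k⌋₊ := by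
        have := congrFun hij k
        exact congrArg Fin.val this
      have h4 := Nat.floor_le (mul_nonneg hc0.le ((hx1 i) k).1)
      have h5 := Nat.lt_floor_add_one (c * x i k)
      have h6 := Nat.floor_le (mul_nonneg hc0.le ((hx1 j) k).1)
      have h7 := Nat.lt_floor_add_one (c * x j k)
      rw [h3] at h4 h5
      have h8 : |c * (x i k - x j k)| < 1 := by
        rw [abs_lt]
        constructor <;> linarith
      have h9 : (c * (x i k - x j k)) ^ 2 < 1 := by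
        rw [← sq_abs]
        exact pow_lt_one₀ (abs_nonneg _) h8 two_ne_zero
      rw [lt_div_iff₀ (by positivity)]
      calc (x i k - x j k) ^ 2 * c ^ 2 = (c * (x i k - x j k)) ^ 2 := by ring
        _ < 1 := h9
    have h3 : ∑ k, (x i k - x j k) ^ 2 < ∑ _k : Fin d, 1 / c ^ 2 :=
      Finset.sum_lt_sum_of_nonempty ⟨⟨0, by omega⟩, Finset.mem_univ _⟩ fun k _ => h2 k
    rw [Finset.sum_const, Finset.card_univ, Fintype.card_fin, nsmul_eq_mul] at h3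
    have h4 : (d : ℝ) * (1 / c ^ 2) ≤ (2 * a) ^ 2 := by
      have h5 : (1 : ℝ) ≤ d := by exact_mod_cast hd
      have h6 : (d : ℝ) * (1 / c ^ 2) = (2 * a) ^ 2 / d := by rw [hc]; field_simp
      rw [h6, div_le_iff₀ hd']
      nlinarith [sq_nonneg (2 * a)]
    linarith
  have h := Fintype.card_le_of_injective _ hinj
  rw [Fintype.card_fin, Fintype.card_fun, Fintype.card_fin, Fintype.card_fin] at h
  exact h

theorem packs_bdd (hd : 1 ≤ d) {a : ℝ} (ha : 0 < a) (ℓ : ℝ) : BddAbove {N | Packs d a ℓ N} :=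
  ⟨_, fun _ hN => hN.le hd ha⟩

theorem packs_maxN (hd : 1 ≤ d) {a : ℝ} (ha : 0 < a) (ℓ : ℝ) : Packs d a ℓ (maxN d a ℓ) :=
  Nat.sSup_mem ⟨0, packs_zero a ℓ⟩ (packs_bdd hd ha ℓ)

theorem le_maxN (hd : 1 ≤ d) {a : ℝ} (ha : 0 < a) {ℓ : ℝ} {N : ℕ} (h : Packs d a ℓ N) :
    N ≤ maxN d a ℓ :=
  le_csSup (packs_bdd hd ha ℓ) h

theorem Packs.mono {a ℓ ℓ' : ℝ} (hl : ℓ ≤ ℓ') {N : ℕ} (h : Packs d a ℓ N) : Packs d a ℓ' N := by
  obtain ⟨x, hx1, hx2⟩ := h
  exact ⟨x, fun i k => ⟨(hx1 i k).1, (hx1 i k).2.trans_le hl⟩, hx2⟩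

theorem maxN_mono (hd : 1 ≤ d) {a : ℝ} (ha : 0 < a) {ℓ ℓ' : ℝ} (hl : ℓ ≤ ℓ') :
    maxN d a ℓ ≤ maxN d a ℓ' :=
  le_maxN hd ha ((packs_maxN hd ha ℓ).mono hl)

/-- Copies of a packing. -/
theorem Packs.copies {a s : ℝ} (ha : 0 < a) (hs : 0 < s) {N : ℕ} (h : Packs d a s N) (q : ℕ) :
    Packs d a (q * (s + 2 * a)) (q ^ d * N) := by
  obtain ⟨x, hx1, hx2⟩ := h
  have hc : Fintype.card ((Fin d → Fin q) × Fin N) = q ^ d * N := by simp
  obtain ⟨e⟩ : Nonempty (Fin (q ^ d * N) ≃ (Fin d → Fin q) × Fin N) :=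
    ⟨(Fintype.equivFinOfCardEq hc).symm⟩
  have hsa : 0 < s + 2 * a := by positivity
  refine ⟨fun i k => ((e i).1 k : ℕ) * (s + 2 * a) + x (e i).2 k, ?_, ?_⟩
  · intro i k
    have h1 := hx1 (e i).2 k
    have h2 : (((e i).1 k : ℕ) : ℝ) + 1 ≤ q := by exact_mod_cast ((e i).1 k).2
    have h3 : (0 : ℝ) ≤ ((e i).1 k : ℕ) := by positivity
    refine ⟨by nlinarith [h1.1, mul_nonneg h3 hsa.le], ?_⟩
    have h4 : ((((e i).1 k : ℕ) : ℝ) + 1) * (s + 2 * a) ≤ q * (s + 2 * a) := by gcongr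
    nlinarith [h1.2]
  · intro i j hij
    by_cases h1 : (e i).1 = (e j).1
    · have h2 : (e i).2 ≠ (e j).2 := fun h2 => hij (e.injective (Prod.ext h1 h2))
      refine (hx2 _ _ h2).trans (le_of_eq ?_)
      refine Finset.sum_congr rfl fun k _ => ?_
      simp only [h1]
      ring
    · obtain ⟨k, hk⟩ := Function.ne_iff.1 h1
      have h2 : ((e i).1 k : ℕ) ≠ ((e j).1 k : ℕ) := fun h => hk (Fin.ext h)
      have hi := hx1 (e i).2 k
      have hj := hx1 (e j).2 k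
      have h3 : (2 * a) ^ 2 ≤ ((((e i).1 k : ℕ) * (s + 2 * a) + x (e i).2 k) -
          (((e j).1 k : ℕ) * (s + 2 * a) + x (e j).2 k)) ^ 2 := by
        rcases lt_or_gt_of_ne h2 with h | h
        · have h4 : (((e i).1 k : ℕ) : ℝ) + 1 ≤ ((e j).1 k : ℕ) := by exact_mod_cast h
          have h5 : ((((e i).1 k : ℕ) : ℝ) + 1) * (s + 2 * a) ≤ ((e j).1 k : ℕ) * (s + 2 * a) := by
            gcongr
          nlinarith [hi.1, hi.2, hj.1, hj.2]
        · have h4 : (((e j).1 k : ℕ) : ℝ) + 1 ≤ ((e i).1 k : ℕ) := by exact_mod_cast h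
          have h5 : ((((e j).1 k : ℕ) : ℝ) + 1) * (s + 2 * a) ≤ ((e i).1 k : ℕ) * (s + 2 * a) := by
            gcongr
          nlinarith [hi.1, hi.2, hj.1, hj.2]
      refine h3.trans ?_
      exact Finset.single_le_sum (f := fun k => ((((e i).1 k : ℕ) * (s + 2 * a) + x (e i).2 k) -
          (((e j).1 k : ℕ) * (s + 2 * a) + x (e j).2 k)) ^ 2) (fun k _ => sq_nonneg _)
        (Finset.mem_univ k)

theorem maxN_floor (hd : 1 ≤ d) {a : ℝ} (ha : 0 < a) {s t : ℝ} (hs : 0 < s) (ht : 0 ≤ t) :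
    (⌊t / (s + 2 * a)⌋₊ : ℝ) ^ d * maxN d a s ≤ maxN d a t := by
  have h1 := (packs_maxN hd ha s).copies ha hs ⌊t / (s + 2 * a)⌋₊
  have hpos : 0 < s + 2 * a := by positivity
  have h2 : (⌊t / (s + 2 * a)⌋₊ : ℝ) * (s + 2 * a) ≤ t := by
    have h3 := Nat.floor_le (show 0 ≤ t / (s + 2 * a) by positivity)
    rwa [le_div_iff₀ hpos] at h3
  have h3 := le_maxN hd ha (h1.mono h2)
  exact_mod_cast h3

theorem maxN_le (hd : 1 ≤ d) {a : ℝ} (ha : 0 < a) {s : ℝ} (hs : 0 < s) :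
    (maxN d a s : ℝ) ≤ ((d / (2 * a) + 1 / (2 * a)) * (s + 2 * a)) ^ d := by
  have h1 := (packs_maxN hd ha s).le hd ha
  have h2 : (maxN d a s : ℝ) ≤ (⌈(d : ℝ) / (2 * a) * s⌉₊ : ℝ) ^ d := by exact_mod_cast h1
  refine h2.trans ?_
  have h3 : (⌈(d : ℝ) / (2 * a) * s⌉₊ : ℝ) ≤ (d / (2 * a) + 1 / (2 * a)) * (s + 2 * a) := by
    refine (Nat.ceil_lt_add_one (by positivity)).le.trans ?_
    have h4 : (d / (2 * a) + 1 / (2 * a)) * (s + 2 * a) =
        d / (2 * a) * s + 1 + (d + s / (2 * a)) := by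
      field_simp
      ring
    rw [h4]
    have h5 : (0 : ℝ) ≤ d + s / (2 * a) := by positivity
    linarith
  gcongr

theorem cpd_bdd (hd : 1 ≤ d) {a : ℝ} (ha : 0 < a) : BddAbove (Set.range fun s : Set.Ioi (0 : ℝ) =>
    (maxN d a s : ℝ) / ((s : ℝ) + 2 * a) ^ d) := by
  refine ⟨(d / (2 * a) + 1 / (2 * a)) ^ d, ?_⟩
  rintro _ ⟨s, rfl⟩
  have hs : (0 : ℝ) < s := s.2
  simp only
  rw [div_le_iff₀ (by positivity), ← mul_pow]
  exact maxN_le hd ha hs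

theorem cpd_ge (hd : 1 ≤ d) {a : ℝ} (ha : 0 < a) {s : ℝ} (hs : 0 < s) :
    (maxN d a s : ℝ) ≤ (s + 2 * a) ^ d * cpd d a := by
  have h1 : (maxN d a s : ℝ) / (s + 2 * a) ^ d ≤ cpd d a :=
    le_ciSup (cpd_bdd hd ha) (⟨s, hs⟩ : Set.Ioi (0 : ℝ))
  rw [div_le_iff₀ (by positivity)] at h1
  linarith

theorem cpd_pos (hd : 1 ≤ d) {a : ℝ} (ha : 0 < a) : 0 < cpd d a := by
  have h1 : Packs d a 1 1 :=
    ⟨fun _ _ => 0, fun i k => ⟨le_rfl, one_pos⟩, fun i j hij => (hij (Subsingleton.elim i j)).elim⟩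
  have h2 := le_maxN hd ha h1
  have h3 := cpd_ge hd ha (s := 1) one_pos
  have h4 : (1 : ℝ) ≤ maxN d a 1 := by exact_mod_cast h2
  have h5 : (0 : ℝ) < (1 + 2 * a) ^ d := by positivity
  by_contra h
  push Not at h
  have := mul_nonpos_of_nonneg_of_nonpos h5.le h
  linarith

/-- The close-packing density is the limit of the maximal number of points per volume. -/
theorem tendsto_cpd (hd : 1 ≤ d) {a : ℝ} (ha : 0 < a) :
    Tendsto (fun ℓ : ℝ => (maxN d a ℓ : ℝ) / ℓ ^ d) atTop (𝓝 (cpd d a)) := by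
  rw [tendsto_order]
  constructor
  · intro b hb
    obtain ⟨s, h2⟩ := exists_lt_of_lt_ciSup (show b < ⨆ s : Set.Ioi (0 : ℝ),
      (maxN d a s : ℝ) / ((s : ℝ) + 2 * a) ^ d from hb)
    have hs : (0 : ℝ) < s := s.2
    have hpos : 0 < (s : ℝ) + 2 * a := by positivity
    have h3 : b < (1 / ((s : ℝ) + 2 * a)) ^ d * maxN d a s := by
      refine h2.trans_le (le_of_eq ?_)
      rw [div_pow, one_pow]
      ring
    have h4 : Tendsto (fun t : ℝ => (⌊t / ((s : ℝ) + 2 * a)⌋₊ : ℝ) / t) atTop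
        (𝓝 (1 / ((s : ℝ) + 2 * a))) := by
      have h5 := tendsto_nat_floor_mul_div_atTop (R := ℝ) (a := 1 / ((s : ℝ) + 2 * a))
        (by positivity)
      refine h5.congr fun n => ?_
      congr 3
      ring
    have h6 : Tendsto (fun t : ℝ => ((⌊t / ((s : ℝ) + 2 * a)⌋₊ : ℝ) / t) ^ d *
        maxN d a s) atTop (𝓝 ((1 / ((s : ℝ) + 2 * a)) ^ d * maxN d a s)) :=
      (h4.pow d).mul_const _
    filter_upwards [h6.eventually_const_lt h3, eventually_gt_atTop 0] with t h7 ht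
    refine lt_of_lt_of_le h7 ?_
    rw [le_div_iff₀ (pow_pos ht d), div_pow]
    have h8 := maxN_floor hd ha hs ht.le
    calc (⌊t / ((s : ℝ) + 2 * a)⌋₊ : ℝ) ^ d / t ^ d * maxN d a s * t ^ d
        = (⌊t / ((s : ℝ) + 2 * a)⌋₊ : ℝ) ^ d * maxN d a s := by
          field_simp
      _ ≤ _ := h8
  · intro b hb
    have h1 : Tendsto (fun t : ℝ => (1 + 2 * a / t) ^ d * cpd d a) atTop
        (𝓝 ((1 + 0) ^ d * cpd d a)) := by
      refine Tendsto.mul_const _ (Tendsto.pow (Tendsto.add tendsto_const_nhds ?_) d)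
      exact tendsto_const_nhds.div_atTop tendsto_id
    rw [add_zero, one_pow, one_mul] at h1
    filter_upwards [h1.eventually_lt_const hb, eventually_gt_atTop 0] with t h2 ht
    refine lt_of_le_of_lt ?_ h2
    rw [div_le_iff₀ (pow_pos ht d)]
    refine (cpd_ge hd ha ht).trans (le_of_eq ?_)
    have h3 : t + 2 * a = t * (1 + 2 * a / t) := by
      field_simp
    rw [h3, mul_pow]
    ring

end Pool.Agent.NeedleGas
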