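import Pool.Agent.Lib.MP_09cbbd_ndm.BHsp
import Pool.Agent.Lib.MP_09cbbd_ndp.Pack
import Pool.Agent.Lib.MP_09cbbd_ndg.GTr

/-!
# The slope of the pressure of the pure hard spheres: close packing
-/

set_option autoImplicit false

namespace Pool.Agent.NeedleGas

open MeasureTheory Filter Topology Pool.Agent.SquareWellGas Pool.Agent.SquareWell
open Pool.Agent.StableGas (mC Xi)
open Pool.Agent.ConfinedGas (Cf)
open Pool.Agent.Nbm (XH PH hsp PH_ge XH_ne_top)
open Pool.Agent.Needle (emb emb_apply norm_le_of norm_emb)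

variable {d : ℕ}

theorem exists_subgradient {f : ℝ → ℝ} (hf : ConvexOn ℝ Set.univ f) (x : ℝ) :
    ∃ r : ℝ, ∀ y, f x + r * (y - x) ≤ f y := by
  have key : ∀ t u : ℝ, 0 < t → 0 < u → (f x - f (x - t)) / t ≤ (f (x + u) - f x) / u := by
    intro t u ht hu
    have h := hf.slope_mono_adjacent (x := x - t) (y := x) (z := x + u) (Set.mem_univ _)
      (Set.mem_univ _) (by linarith) (by linarith)
    have e1 : x - (x - t) = t := by ring
    have e2 : x + u - x = u := by ring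
    rwa [e1, e2] at h
  have hne : Nonempty (Set.Ioi (0 : ℝ)) := ⟨⟨1, Set.mem_Ioi.2 one_pos⟩⟩
  refine ⟨⨅ u : Set.Ioi (0 : ℝ), (f (x + u) - f x) / u, ?_⟩
  have hb : BddBelow (Set.range fun u : Set.Ioi (0 : ℝ) => (f (x + u) - f x) / (u : ℝ)) := by
    refine ⟨(f x - f (x - 1)) / 1, ?_⟩
    rintro _ ⟨u, rfl⟩
    exact key 1 u one_pos u.2
  intro y
  rcases lt_trichotomy x y with h | h | h
  · have h1 : (⨅ u : Set.Ioi (0 : ℝ), (f (x + u) - f x) / (u : ℝ)) ≤
        (f (x + (y - x)) - f x) / (y - x) := ciInf_le hb ⟨y - x, by simpa using h⟩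
    have h2 : 0 < y - x := by linarith
    rw [le_div_iff₀ h2, add_sub_cancel] at h1
    linarith
  · rw [h]
    simp
  · have h2 : 0 < x - y := by linarith
    have h1 : (f x - f (x - (x - y))) / (x - y) ≤
        ⨅ u : Set.Ioi (0 : ℝ), (f (x + u) - f x) / (u : ℝ) :=
      le_ciInf fun u => key (x - y) u h2 u.2
    rw [div_le_iff₀ h2, sub_sub_cancel] at h1
    linarith

/-- The volume of the configurations close to a dilated packing. -/
theorem volume_near (hd : 1 ≤ d) {a s ε : ℝ} (ha : 0 < a) (hε : 0 < ε) {N : ℕ}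
    (h : Packs d a s N) :
    ENNReal.ofReal ((2 * a * ε / d) ^ (d * N)) ≤
      mC volume (2 * a) (Fin N) (Box d ((1 + ε) * s + 2 * a * ε / d)) := by
  obtain ⟨x, hx1, hx2⟩ := h
  have hd0 : (0 : ℝ) < d := by exact_mod_cast hd
  obtain ⟨η, hη⟩ : ∃ η, η = 2 * a * ε / d := ⟨_, rfl⟩
  have hη0 : 0 < η := by rw [hη]; positivity
  have hdη : d * η = 2 * a * ε := by rw [hη]; field_simp
  rw [← hη]
  have hsub : (Set.univ.pi fun i : Fin N => Set.univ.pi fun k : Fin d =>
      Set.Ico ((1 + ε) * x i k) ((1 + ε) * x i k + η)) ⊆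
      Cf (2 * a) (Fin N) (Box d ((1 + ε) * s + η)) := by
    intro y hy
    have hy' : ∀ i k, (1 + ε) * x i k ≤ y i k ∧ y i k < (1 + ε) * x i k + η := fun i k =>
      hy i (Set.mem_univ i) k (Set.mem_univ k)
    constructor
    · intro i k
      have h1 := hy' i k
      have h2 := hx1 i k
      refine ⟨le_trans (by have := h2.1; positivity) h1.1, h1.2.trans_le ?_⟩
      have h3 : (1 + ε) * x i k ≤ (1 + ε) * s := mul_le_mul_of_nonneg_left h2.2.le (by linarith)
      linarith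
    · intro i j hij
      have h0 := hx2 i j hij
      have n1 : ‖emb fun k => x i k - x j k‖ ^ 2 = ∑ k, (x i k - x j k) ^ 2 := by
        rw [norm_emb]
        unfold nrm
        rw [Real.sq_sqrt (Finset.sum_nonneg fun k _ => sq_nonneg _)]
      have n2 : ‖emb fun k => y i k - y j k‖ ^ 2 = ∑ k, (y i k - y j k) ^ 2 := by
        rw [norm_emb]
        unfold nrm
        rw [Real.sq_sqrt (Finset.sum_nonneg fun k _ => sq_nonneg _)]
      have h1 : 2 * a ≤ ‖emb fun k => x i k - x j k‖ := by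
        rw [← n1] at h0
        exact le_of_sq_le_sq h0 (norm_nonneg _)
      have h2 : ‖(1 + ε) • (emb fun k => x i k - x j k) - emb fun k => y i k - y j k‖ ≤
          d * η := by
        refine norm_le_of hη0.le fun k => ?_
        rw [PiLp.sub_apply, PiLp.smul_apply, emb_apply, emb_apply, smul_eq_mul, abs_le]
        have h3 := hy' i k
        have h4 := hy' j k
        constructor <;> linarith [h3.1, h3.2, h4.1, h4.2]
      have h3 : (1 + ε) * (2 * a) ≤ ‖(1 + ε) • (emb fun k => x i k - x j k)‖ := by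
        rw [norm_smul, Real.norm_of_nonneg (by linarith)]
        gcongr
      have h4 := norm_sub_norm_le ((1 + ε) • (emb fun k => x i k - x j k))
        (emb fun k => y i k - y j k)
      have h5 : 2 * a ≤ ‖emb fun k => y i k - y j k‖ := by
        rw [hdη] at h2
        linarith
      have h6 : (2 * a) ^ 2 ≤ ‖emb fun k => y i k - y j k‖ ^ 2 := by gcongr
      rw [n2] at h6
      exact h6
  refine le_trans (le_of_eq ?_) (measure_mono hsub)
  rw [Measure.pi_pi]
  simp only [volume_pi_pi, Real.volume_Ico, add_sub_cancel_left]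
  rw [Finset.prod_const, Finset.prod_const, Finset.card_univ, Finset.card_univ, Fintype.card_fin,
    Fintype.card_fin, ← pow_mul, ENNReal.ofReal_pow hη0.le]

theorem XH_lower (hd : 1 ≤ d) {a s ε : ℝ} (ha : 0 < a) (hs : 0 < s) (hε : 0 < ε) {N : ℕ}
    (h : Packs d a s N) (μ : ℝ) :
    μ * N + Real.log ((2 * a * ε / d) ^ (d * N) / N.factorial) ≤
      ((1 + ε) * s + 2 * a * ε / d + 2 * a) ^ d * PH d a μ := by
  have hd0 : (0 : ℝ) < d := by exact_mod_cast hd
  obtain ⟨t, ht⟩ : ∃ t, t = (1 + ε) * s + 2 * a * ε / d := ⟨_, rfl⟩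
  have ht0 : 0 < t := by rw [ht]; positivity
  rw [← ht]
  refine le_trans ?_ (PH_ge ha μ ht0)
  have hη0 : 0 < 2 * a * ε / d := by positivity
  have h1 := ENNReal.le_tsum (f := fun N : ℕ => ex μ ^ N * ((N.factorial : ENNReal))⁻¹ *
    mC (volume : Measure (Fin d → ℝ)) (2 * a) (Fin N) (Box d t)) N
  have h2 : ENNReal.ofReal (Real.exp (μ * N) * ((2 * a * ε / d) ^ (d * N) / N.factorial)) ≤
      XH d a μ t := by
    have h0 := volume_near hd ha hε h
    rw [← ht] at h0
    refine le_trans (le_of_eq ?_) ((mul_le_mul' (le_refl (ex μ ^ N *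
      ((N.factorial : ENNReal))⁻¹)) h0).trans h1)
    rw [ex_pow, ENNReal.ofReal_mul (Real.exp_pos _).le, ENNReal.ofReal_div_of_pos (by positivity),
      ENNReal.ofReal_natCast, div_eq_mul_inv]
    unfold ex
    ring
  have h3 := ENNReal.toReal_mono (XH_ne_top a μ t) h2
  rw [ENNReal.toReal_ofReal (by positivity)] at h3
  have h4 := Real.log_le_log (by positivity) h3
  rw [Real.log_mul (Real.exp_pos _).ne' (by positivity), Real.log_exp] at h4
  exact h4

/-- The asymptotic slope of the pressure is the close-packing density. -/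
theorem PH_lower (hd : 1 ≤ d) {a ρ : ℝ} (ha : 0 < a) (hρ : ρ < cpd d a) :
    ∃ C : ℝ, ∀ μ, 0 ≤ μ → ρ * μ - C ≤ PH d a μ := by
  have hd0 : (0 : ℝ) < d := by exact_mod_cast hd
  obtain ⟨s, h2⟩ := exists_lt_of_lt_ciSup (show ρ < ⨆ s : Set.Ioi (0 : ℝ),
    (maxN d a s : ℝ) / ((s : ℝ) + 2 * a) ^ d from hρ)
  obtain ⟨s, hs⟩ := s
  have hs0 : (0 : ℝ) < s := hs
  simp only at h2
  have hN := packs_maxN hd ha s
  obtain ⟨N, hNd⟩ : ∃ N, N = maxN d a s := ⟨_, rfl⟩
  rw [← hNd] at hN h2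
  have hev : ∀ᶠ ε : ℝ in 𝓝[>] 0, ρ < (N : ℝ) / ((1 + ε) * s + 2 * a * ε / d + 2 * a) ^ d := by
    have hc : Tendsto (fun ε : ℝ => (N : ℝ) / ((1 + ε) * s + 2 * a * ε / d + 2 * a) ^ d) (𝓝 0)
        (𝓝 ((N : ℝ) / ((1 + 0) * s + 2 * a * 0 / d + 2 * a) ^ d)) := by
      refine Tendsto.div tendsto_const_nhds ?_ (by positivity)
      exact (Continuous.tendsto (by fun_prop) 0)
    have e : (N : ℝ) / ((1 + 0) * s + 2 * a * 0 / d + 2 * a) ^ d = (N : ℝ) / (s + 2 * a) ^ d := by
      congr 2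
      simp
    rw [e] at hc
    exact (hc.eventually_const_lt h2).filter_mono nhdsWithin_le_nhds
  obtain ⟨ε, hε1, hε2⟩ := (hev.and self_mem_nhdsWithin).exists
  have hε : (0 : ℝ) < ε := hε2
  obtain ⟨T, hT⟩ : ∃ T, T = ((1 + ε) * s + 2 * a * ε / d + 2 * a) ^ d := ⟨_, rfl⟩
  have hT0 : 0 < T := by rw [hT]; positivity
  rw [← hT] at hε1
  refine ⟨-(Real.log ((2 * a * ε / d) ^ (d * N) / N.factorial)) / T, fun μ hμ => ?_⟩
  have h3 := XH_lower hd ha hs0 hε hN μ
  rw [← hT] at h3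
  rw [lt_div_iff₀ hT0] at hε1
  have h4 : ρ * T * μ ≤ N * μ := mul_le_mul_of_nonneg_right hε1.le hμ
  have h5 : T * (ρ * μ - -(Real.log ((2 * a * ε / d) ^ (d * N) / N.factorial)) / T) ≤
      T * PH d a μ := by
    refine le_trans (le_of_eq ?_) (le_trans (add_le_add h4 (le_refl
      (Real.log ((2 * a * ε / d) ^ (d * N) / N.factorial)))) (le_trans (le_of_eq ?_) h3))
    · field_simp
      ring
    · ring
  exact le_of_mul_le_mul_left h5 hT0

/-- For every density below close packing there is a chemical potential at which the pure hard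
spheres have at least this density. -/
theorem exists_dense (hd : 1 ≤ d) {a ρ : ℝ} (ha : 0 < a) (hρ : ρ < cpd d a) :
    ∃ μ' ρ' : ℝ, ρ ≤ ρ' ∧ ∀ μ, PH d a μ' + ρ' * (μ - μ') ≤ PH d a μ := by
  obtain ⟨ρ1, h1, h2⟩ := exists_between hρ
  obtain ⟨C, hC⟩ := PH_lower hd ha h2
  have hconv := (hsp hd ha).convex
  obtain ⟨m, hm⟩ : ∃ m, m = max 1 ((C + PH d a 0) / (ρ1 - ρ)) := ⟨_, rfl⟩
  have hm1 : 1 ≤ m := by rw [hm]; exact le_max_left _ _
  have hm2 : (C + PH d a 0) / (ρ1 - ρ) ≤ m := by rw [hm]; exact le_max_right _ _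
  have h12 : 0 < ρ1 - ρ := by linarith
  rw [div_le_iff₀ h12] at hm2
  obtain ⟨r, hr⟩ := exists_subgradient hconv m
  refine ⟨m, r, ?_, hr⟩
  have h3 := hr 0
  have h4 := hC m (by linarith)
  have h5 : ρ * m ≤ r * m := by nlinarith
  exact le_of_mul_le_mul_right h5 (by linarith)

end Pool.Agent.NeedleGas
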